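import Pool.Agent.H26.MQ.Stmt
import Pool.Agent.H26.ML.Defs

/-!
# Definitions for the inequality with the zeros off the critical line
-/

set_option autoImplicit false

open Complex

namespace Pool.Agent.H26.ZQ

open Pool.Agent.H23.GLM Pool.Agent.H26.MQ

/-- The contribution of `ρ = β + iγ` to the displacement of the zeros of `g` seen from
`1/2 + it`: the order of the zero `ρ` times `max(β - 1/2, 0) / (1 + |ρ - 1/2 - it|²)`. It is zero if
`ρ` is not a zero of `g`. -/
noncomputable def dispTerm (g : ℂ → ℂ) (t : ℝ) (ρ : ℂ) : ℝ :=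
  (analyticOrderNatAt g ρ : ℝ) * (max (ρ.re - 1 / 2) 0 / (1 + ‖ρ - (1 / 2 + t * I)‖ ^ 2))

/-- The displacement of the zeros of `g` seen from `1/2 + it`: the sum of
`(β - 1/2) / (1 + |ρ - 1/2 - it|²)` over the zeros `ρ = β + iγ` of `g` with `β > 1/2`, counted with
multiplicity. -/
noncomputable def disp (g : ℂ → ℂ) (t : ℝ) : ℝ := ∑' ρ : ℂ, dispTerm g t ρ

variable {m : ℕ}

/-- For every `ε > 0` the displacement of the zeros seen from `1/2 + it` is at most `ε log X` if `X`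
is large. -/
def SmallDisp (S : Set (LData m)) : Prop :=
  ∀ ε : ℝ, 0 < ε → ∃ K : ℝ, ∀ π ∈ S, ∀ t : ℝ, K ≤ π.X t → disp π.L t ≤ ε * Real.log (π.X t)

/-- For every `ε > 0` the Poisson mean of `log |L|` at height `t` is at most `ε log X` if `X` is
large. -/
def SmallMeans (S : Set (LData m)) (c : ℝ) : Prop :=
  ∀ ε : ℝ, 0 < ε → ∃ K : ℝ, ∀ π ∈ S, ∀ t : ℝ, K ≤ π.X t →
    logMean π.L c t ≤ ε * Real.log (π.X t)

/-- For every `ε > 0`, if `X` is large, there is a multiplier `M` for which the Poisson mean of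
`log |LM|` at height `t` exceeds `log |M(1/2 + c + it)|` by at most `ε log X`. -/
def Mollifiable (S : Set (LData m)) (c : ℝ) : Prop :=
  ∀ ε : ℝ, 0 < ε → ∃ K : ℝ, ∀ π ∈ S, ∀ t : ℝ, K ≤ π.X t → ∃ M : ℂ → ℂ, Multiplier M ∧
    M (1 / 2 + c + t * I) ≠ 0 ∧
    logMean (fun s => π.L s * M s) c t - Real.log ‖M (1 / 2 + c + t * I)‖ ≤
      ε * Real.log (π.X t)

end Pool.Agent.H26.ZQ
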