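import Pool.Agent.H26.ZQ.Defs
import Pool.Agent.H26.ZQ.Stmt
import Pool.Agent.H26.MQ.Means

/-! The displacement of the zeros and the Poisson means. -/

set_option autoImplicit false

open MeasureTheory Set Filter Topology Complex

namespace Pool.Agent.H26.ZQ

open Pool.Agent.H26.ML Pool.Agent.H26.MQ Pool.Agent.H23.GLM Pool.Agent.H23.GLH Pool.Agent.H23.DZ
open Pool.Agent.H61.Ray (norm_L_F)
open Pool.Agent.H61.NL (farLow)

variable {m : ℕ}

lemma Fz_one : Fz 1 ≠ 0 := by
  unfold Fz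
  have h1 : (2 : ℂ) ^ (-(1 : ℂ)) = 1 / 2 := by
    rw [Complex.cpow_neg, Complex.cpow_one, one_div]
  rw [h1]
  norm_num

/-- The orders of `F` are at most those of `L`. -/
lemma order_F_le_L (π : LData m) {s : ℂ} (hs : 0 < s.re) :
    analyticOrderNatAt π.F s ≤ analyticOrderNatAt π.L s := by
  by_cases h : Differentiable ℂ π.L
  · rw [LData.F_pos h]
  · obtain ⟨_, _, hL⟩ := LData.zeta_of h
    rw [LData.F_neg h, hL]
    by_cases hs1 : s = 1
    · have h0 : analyticOrderNatAt Fz s = 0 := by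
        by_cases ha : AnalyticAt ℂ Fz s
        · rw [analyticOrderNatAt, ha.analyticOrderAt_eq_zero.mpr]
          · rfl
          · rw [hs1]; exact Fz_one
        · exact analyticOrderNatAt_of_not_analyticAt ha
      omega
    have hU : {z : ℂ | 0 < z.re} ∩ {z : ℂ | z ≠ 1} ∈ 𝓝 s :=
      ((isOpen_lt continuous_const Complex.continuous_re).inter isOpen_ne).mem_nhds ⟨hs, hs1⟩
    have hev : Fz =ᶠ[𝓝 s] fun z => riemannZeta z * ((z - 1) / (z + 1)) := by
      filter_upwards [hU] with z hz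
      exact Fz_eq hz.1 hz.2
    have ha1 : AnalyticAt ℂ riemannZeta s := by
      have : DifferentiableOn ℂ riemannZeta ({z : ℂ | 0 < z.re} ∩ {z : ℂ | z ≠ 1}) :=
        fun z hz => (differentiableAt_riemannZeta hz.2).differentiableWithinAt
      exact this.analyticAt hU
    have hne : s + 1 ≠ 0 := add_one_ne hs
    have ha2 : AnalyticAt ℂ (fun z : ℂ => (z - 1) / (z + 1)) s := by
      have h3 : AnalyticAt ℂ (fun z : ℂ => z - 1) s := by fun_prop
      have h4 : AnalyticAt ℂ (fun z : ℂ => z + 1) s := by fun_prop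
      exact h3.fun_div h4 hne
    have hne2 : (fun z : ℂ => (z - 1) / (z + 1)) s ≠ 0 :=
      div_ne_zero (sub_ne_zero.mpr hs1) hne
    have h2 : analyticOrderAt Fz s = analyticOrderAt riemannZeta s := by
      rw [analyticOrderAt_congr hev]
      have e : (fun z => riemannZeta z * ((z - 1) / (z + 1))) =
          riemannZeta * fun z : ℂ => (z - 1) / (z + 1) := rfl
      rw [e, analyticOrderAt_mul ha1 ha2, ha2.analyticOrderAt_eq_zero.mpr hne2, add_zero]
    rw [analyticOrderNatAt, analyticOrderNatAt, h2]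

/-- Upper bound for `F` far to the right. -/
lemma norm_F_le_L (π : LData m) {s : ℂ} (hs : 1 < s.re) : ‖π.F s‖ ≤ ‖π.L s‖ := by
  by_cases h : Differentiable ℂ π.L
  · rw [LData.F_pos h]
  · obtain ⟨_, _, hL⟩ := LData.zeta_of h
    have hs1 : s ≠ 1 := by
      rintro rfl
      norm_num at hs
    rw [LData.F_neg h, hL, Fz_eq (by linarith) hs1, norm_mul]
    have hr : ‖(s - 1) / (s + 1)‖ ≤ 1 := by
      have hpos : 0 < ‖s + 1‖ := norm_pos_iff.mpr (add_one_ne (by linarith))
      rw [norm_div, div_le_one hpos]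
      have h2 : (‖s - 1‖) ^ 2 ≤ (‖s + 1‖) ^ 2 := by
        rw [← Complex.normSq_eq_norm_sq, ← Complex.normSq_eq_norm_sq,
          Complex.normSq_apply, Complex.normSq_apply]
        simp only [sub_re, one_re, sub_im, one_im, add_re, add_im]
        nlinarith
      exact (pow_le_pow_iff_left₀ (norm_nonneg _) (by positivity) two_ne_zero).mp h2
    have := norm_nonneg (riemannZeta s)
    nlinarith

lemma dispTerm_nonneg (g : ℂ → ℂ) (t : ℝ) (ρ : ℂ) : 0 ≤ dispTerm g t ρ := by
  unfold dispTerm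
  have : 0 ≤ max (ρ.re - 1 / 2) 0 := le_max_right _ _
  positivity

lemma hyp_of_loc {A σ Λ : ℝ} {k : ℕ} {f : ℂ → ℂ} (hΛ : 0 ≤ Λ) (h : Loc A σ k Λ f)
    (hA : 1 ≤ A) : Hyp (A * Real.exp Λ) σ k f := by
  refine ⟨h.an, h.grow, fun z hz => (h.far z hz).trans ?_⟩
  have h1 : 1 ≤ Real.exp Λ := Real.one_le_exp hΛ
  have h2 := norm_nonneg (f z)
  nlinarith [mul_nonneg (by linarith : (0:ℝ) ≤ A) h2]

/-- Upper bound for the displacement of finitely many zeros. -/
lemma disp_sum_le {A σ c κ Λ t P : ℝ} {π : LData m} (hA : 1 ≤ A) (hσ : 0 < σ) (hc : σ + 2 ≤ c)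
    (hκ : 1 ≤ κ) (hGR : ∀ z : ℂ, 0 < z.re → (z : ℂ) ≠ c →
      z.re / (1 + ‖z‖ ^ 2) ≤ κ * Real.log (‖(c : ℂ) + z‖ / ‖(c : ℂ) - z‖))
    (hl : Loc A σ m Λ (fun z => π.F (1 / 2 + t * I + z))) (hΛ : 0 ≤ Λ)
    (hP : Real.pi⁻¹ * (∫ u, poi c u * bb (fun z => π.F (1 / 2 + t * I + z)) 0 u) ≤ P)
    (W : Finset ℂ) : ∑ ρ ∈ W, dispTerm π.L t ρ ≤ κ * (P + Real.log A) := by
  classical
  have hπ := Real.pi_pos
  have hc0 : 0 < c := by linarith
  set f : ℂ → ℂ := fun z => π.F (1 / 2 + t * I + z) with hf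
  have hpoi : ∀ u : ℝ, poi c u * bb f 0 u = c / (c ^ 2 + u ^ 2) * Real.log ‖f (u * I)‖ := by
    intro u
    unfold poi bb
    rw [Complex.ofReal_zero, neg_zero, zero_add]
  have han : AnalyticOnNhd ℂ f {z | 0 ≤ z.re} := hl.an.mono fun z hz => by
    show -(1 / 4) ≤ z.re
    have : 0 ≤ z.re := hz
    linarith
  have hE : 1 ≤ A * Real.exp Λ := Loc.one_le_E hA hΛ
  have hgr : ∀ z : ℂ, 0 ≤ z.re → ‖f z‖ ≤ A * Real.exp Λ * (1 + ‖z‖) ^ (m : ℝ) := by
    intro z hz
    rw [Real.rpow_natCast]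
    refine (hl.grow z (by linarith)).trans ?_
    have h1 : |z.im| ≤ ‖z‖ := Complex.abs_im_le_norm z
    have h2 := abs_nonneg z.im
    gcongr
  have hfc : f c ≠ 0 := hl.ne_far (by simp; linarith)
  -- the zeros
  set W' := W.filter fun ρ => 1 / 2 < ρ.re with hW'
  set Z := W'.image fun ρ => ρ - (1 / 2 + t * I) with hZ
  have hZpos : ∀ z ∈ Z, 0 < z.re := by
    intro z hz
    rw [hZ, Finset.mem_image] at hz
    obtain ⟨ρ, hρ, rfl⟩ := hz
    rw [hW', Finset.mem_filter] at hρ
    simp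
    linarith [hρ.2]
  obtain ⟨_, h1⟩ := halfplane_jensen hc0 hE (Nat.cast_nonneg m) han hgr hfc Z hZpos
  have h2 : ∑ ρ ∈ W, dispTerm π.L t ρ = ∑ ρ ∈ W', dispTerm π.L t ρ := by
    rw [hW', Finset.sum_filter]
    refine Finset.sum_congr rfl fun ρ _ => ?_
    by_cases h : 1 / 2 < ρ.re
    · rw [if_pos h]
    · rw [if_neg h]
      unfold dispTerm
      rw [max_eq_right (by linarith), zero_div, mul_zero]
  have h3 : ∑ ρ ∈ W', dispTerm π.L t ρ ≤ κ * ∑ z ∈ Z, (analyticOrderNatAt f z : ℝ) *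
      Real.log (‖(c : ℂ) + z‖ / ‖(c : ℂ) - z‖) := by
    rw [hZ, Finset.sum_image (fun a _ b _ h => by simpa using h), Finset.mul_sum]
    refine Finset.sum_le_sum fun ρ hρ => ?_
    rw [hW', Finset.mem_filter] at hρ
    set z := ρ - (1 / 2 + t * I) with hz
    have hzre : z.re = ρ.re - 1 / 2 := by simp [hz]
    have hz0 : 0 < z.re := by rw [hzre]; linarith [hρ.2]
    have hord : analyticOrderNatAt f z = analyticOrderNatAt π.F ρ := by
      have h4 := order_shift π.F (1 / 2 + t * I) ρ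
      rw [← h4]
      congr 1
      funext w
      simp only [hf]
      congr 1
      ring
    have hLF := order_L_le_F π (s := ρ) (by linarith [hρ.2])
    have hnn : 0 ≤ z.re / (1 + ‖z‖ ^ 2) := by positivity
    have h5 : dispTerm π.L t ρ ≤ (analyticOrderNatAt f z : ℝ) * (z.re / (1 + ‖z‖ ^ 2)) := by
      unfold dispTerm
      rw [max_eq_left (by linarith [hρ.2]), ← hzre, ← hz, hord]
      gcongr
    refine h5.trans ?_
    by_cases hzc : z = c
    · have h6 : analyticOrderNatAt f z = 0 := by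
        rw [hzc]
        have h7 : AnalyticAt ℂ f (c : ℂ) := han _ (by
          show (0 : ℝ) ≤ (c : ℂ).re
          simp; linarith)
        rw [analyticOrderNatAt, h7.analyticOrderAt_eq_zero.mpr hfc]
        rfl
      rw [h6]
      simp
    · have h6 := hGR z hz0 hzc
      calc (analyticOrderNatAt f z : ℝ) * (z.re / (1 + ‖z‖ ^ 2)) ≤
          (analyticOrderNatAt f z : ℝ) * (κ * Real.log (‖(c : ℂ) + z‖ / ‖(c : ℂ) - z‖)) := by
            gcongr
        _ = _ := by ring
  have hlow : -Real.log A ≤ Real.log ‖f c‖ := by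
    have h4 := hl.far (c : ℂ) (by simp; linarith)
    have h5 : 0 < ‖f c‖ := norm_pos_iff.mpr hfc
    have h6 := Real.log_nonneg h4
    rw [Real.log_mul (by linarith) h5.ne'] at h6
    linarith
  have h4 : ∑ z ∈ Z, (analyticOrderNatAt f z : ℝ) *
      Real.log (‖(c : ℂ) + z‖ / ‖(c : ℂ) - z‖) + Real.log ‖f c‖ ≤ P := by
    simp_rw [hpoi] at hP
    refine le_trans ?_ hP
    rw [← div_eq_inv_mul, le_div_iff₀ hπ]
    linarith
  rw [h2]
  refine h3.trans ?_
  gcongr
  linarith

/-- The means of `F` and of `L`, the other inequality. -/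
lemma mean_L_F {A σ Λ : ℝ} (hA : 1 ≤ A) (hσ : 0 < σ) (hΛ : 0 ≤ Λ) {π : LData m} {c t : ℝ}
    (hl : Loc A σ m Λ (fun z => π.F (1 / 2 + t * I + z))) (hc : 0 < c)
    (hiL : Integrable (fun y : ℝ => poi c y * Real.log ‖π.L (1 / 2 + (t + y) * I)‖)) :
    logMean π.L c t ≤
      Real.pi⁻¹ * (∫ u, poi c u * bb (fun z => π.F (1 / 2 + t * I + z)) 0 u) + Real.log 7 := by
  have hpi := Real.pi_pos
  have hb := hl.meas (δ := 0) (by norm_num)
  have hi := hl.int hA hΛ hσ le_rfl (by norm_num : (0:ℝ) ≤ 1 / 4)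
  have e : ∀ u : ℝ, (1 / 2 + t * I + (-((0 : ℝ) : ℂ) + u * I) : ℂ) = 1 / 2 + (t + u) * I := by
    intro u
    rw [Complex.ofReal_zero]; ring
  have hbb : ∀ u : ℝ, bb (fun z => π.F (1 / 2 + t * I + z)) 0 u =
      Real.log ‖π.F (1 / 2 + (t + u) * I)‖ := by
    intro u
    show Real.log ‖π.F (1 / 2 + t * I + (-((0 : ℝ) : ℂ) + u * I))‖ = _
    rw [e]
  have hiF : Integrable fun u => poi c u * bb (fun z => π.F (1 / 2 + t * I + z)) 0 u := by
    have := UU_integrable hb hi hc 0
    refine this.congr ?_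
    filter_upwards with u
    rw [zero_sub, poi_even]
  have hFne : ∀ᵐ y : ℝ, π.F (1 / 2 + (t + y) * I) ≠ 0 := by
    have := hl.ae_ne (δ := 0) (by norm_num)
    filter_upwards [this] with u hu
    rw [e] at hu
    exact hu
  have h1 : Integrable fun u => Real.log 7 * poi c u := (poi_integrable hc).const_mul _
  have h2 : ∫ y : ℝ, poi c y * Real.log ‖π.L (1 / 2 + (t + y) * I)‖ ≤
      ∫ u, (poi c u * bb (fun z => π.F (1 / 2 + t * I + z)) 0 u + Real.log 7 * poi c u) := by
    refine integral_mono_ae hiL (hiF.add h1) ?_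
    filter_upwards [hFne] with u hu
    have h3 : 0 < ‖π.F (1 / 2 + (t + u) * I)‖ := norm_pos_iff.mpr hu
    obtain ⟨h4, h5⟩ := norm_L_F π (s := 1 / 2 + (t + u) * I) (by simp; norm_num)
      (by simp; norm_num)
    have h6 := Real.log_le_log (h3.trans_le h4) h5
    rw [Real.log_mul (by norm_num) h3.ne'] at h6
    have h7 := poi_pos hc u
    rw [hbb]
    nlinarith
  rw [integral_add hiF h1, integral_const_mul, poi_integral hc] at h2
  unfold logMean
  have h8 : ∫ y : ℝ, c / (c ^ 2 + y ^ 2) * Real.log ‖π.L (1 / 2 + (t + y) * I)‖ ≤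
      (∫ u, poi c u * bb (fun z => π.F (1 / 2 + t * I + z)) 0 u) + Real.log 7 * Real.pi := h2
  calc Real.pi⁻¹ * ∫ y : ℝ, c / (c ^ 2 + y ^ 2) * Real.log ‖π.L (1 / 2 + (t + y) * I)‖ ≤
      Real.pi⁻¹ * ((∫ u, poi c u * bb (fun z => π.F (1 / 2 + t * I + z)) 0 u) +
        Real.log 7 * Real.pi) := by gcongr
    _ = _ := by field_simp

/-- The displacement bounds the Poisson mean. -/
lemma mean_le_disp (hHE : T_HE) {A σ c κ Λ t B : ℝ} {π : LData m} (hA : 1 ≤ A) (hσ : 0 < σ)
    (hc : σ + 2 ≤ c) (hκ : 1 ≤ κ) (hGR : ∀ z : ℂ, 0 < z.re → z.re ≤ σ →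
      Real.log (‖(c : ℂ) + z‖ / ‖(c : ℂ) - z‖) ≤ κ * (z.re / (1 + ‖z‖ ^ 2)))
    (hl : Loc A σ m Λ (fun z => π.F (1 / 2 + t * I + z))) (hΛ : 0 ≤ Λ)
    (hs : Summable (dispTerm π.L t)) (hB : Real.log ‖π.F (1 / 2 + t * I + c)‖ ≤ B) :
    Real.pi⁻¹ * (∫ u, poi c u * bb (fun z => π.F (1 / 2 + t * I + z)) 0 u) ≤
      κ * disp π.L t + B := by
  classical
  have hπ := Real.pi_pos
  have hc0 : 0 < c := by linarith
  set f : ℂ → ℂ := fun z => π.F (1 / 2 + t * I + z) with hf
  have hpoi : ∀ u : ℝ, poi c u * bb f 0 u = poi c u * Real.log ‖f (u * I)‖ := by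
    intro u
    unfold bb
    rw [Complex.ofReal_zero, neg_zero, zero_add]
  have hE : 1 ≤ A * Real.exp Λ := Loc.one_le_E hA hΛ
  have h1 := hHE (A * Real.exp Λ) σ c (κ * disp π.L t) m f hE hσ (by linarith)
    (hyp_of_loc hΛ hl hA) (fun Z hZ => ?_)
  · simp_rw [hpoi]
    rw [← div_eq_inv_mul, div_le_iff₀ hπ]
    refine h1.trans ?_
    rw [mul_comm Real.pi]
    gcongr
  · have h2 : ∑ z ∈ Z, (analyticOrderNatAt f z : ℝ) *
        Real.log (‖(c : ℂ) + z‖ / ‖(c : ℂ) - z‖) ≤
        κ * ∑ ρ ∈ Z.image fun z => z + (1 / 2 + t * I), dispTerm π.L t ρ := by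
      rw [Finset.sum_image (fun a _ b _ h => by simpa using h), Finset.mul_sum]
      refine Finset.sum_le_sum fun z hz => ?_
      have hz0 := hZ z hz
      have hord : analyticOrderNatAt f z = analyticOrderNatAt π.F (z + (1 / 2 + t * I)) := by
        have h4 := order_shift π.F (1 / 2 + t * I) (z + (1 / 2 + t * I))
        rw [add_sub_cancel_right] at h4
        rw [← h4]
        congr 1
        funext w
        simp only [hf]
        congr 1
        ring
      have hre : (z + (1 / 2 + t * I)).re - 1 / 2 = z.re := by simp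
      by_cases hzσ : z.re ≤ σ
      · have hFL := order_F_le_L π (s := z + (1 / 2 + t * I)) (by linarith)
        have h5 := hGR z hz0 hzσ
        unfold dispTerm
        rw [hre, max_eq_left hz0.le, add_sub_cancel_right, hord]
        calc (analyticOrderNatAt π.F (z + (1 / 2 + t * I)) : ℝ) *
            Real.log (‖(c : ℂ) + z‖ / ‖(c : ℂ) - z‖) ≤
            (analyticOrderNatAt π.F (z + (1 / 2 + t * I)) : ℝ) *
              (κ * (z.re / (1 + ‖z‖ ^ 2))) := by gcongr
          _ = κ * ((analyticOrderNatAt π.F (z + (1 / 2 + t * I)) : ℝ) *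
              (z.re / (1 + ‖z‖ ^ 2))) := by ring
          _ ≤ κ * ((analyticOrderNatAt π.L (z + (1 / 2 + t * I)) : ℝ) *
              (z.re / (1 + ‖z‖ ^ 2))) := by
            have hnn : 0 ≤ z.re / (1 + ‖z‖ ^ 2) := by positivity
            gcongr
      · have h6 : analyticOrderNatAt f z = 0 := by
          have h7 : AnalyticAt ℂ f z := hl.an z (by
            show -(1 / 4) ≤ z.re
            linarith)
          rw [analyticOrderNatAt, h7.analyticOrderAt_eq_zero.mpr
            (hl.ne_far (le_of_lt (not_le.mp hzσ)))]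
          rfl
        rw [h6, Nat.cast_zero, zero_mul]
        have := dispTerm_nonneg π.L t (z + (1 / 2 + t * I))
        positivity
    refine h2.trans ?_
    gcongr
    exact hs.sum_le_tsum _ fun ρ _ => dispTerm_nonneg _ _ _

/-- The trivial bound for the mean of `F`. -/
lemma mean_F_triv {A σ Λ : ℝ} (hA : 1 ≤ A) (hσ : 0 < σ) (hΛ : 0 ≤ Λ) {f : ℂ → ℂ} {c : ℝ}
    (hl : Loc A σ m Λ f) (hc : 0 < c) :
    Real.pi⁻¹ * (∫ u, poi c u * bb f 0 u) ≤
      Real.log A + Λ + m * (Real.pi⁻¹ * ∫ u, poil c u) := by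
  have hpi := Real.pi_pos
  have hb := hl.meas (δ := 0) (by norm_num)
  have hi := hl.int hA hΛ hσ le_rfl (by norm_num : (0:ℝ) ≤ 1 / 4)
  have hiF : Integrable fun u => poi c u * bb f 0 u := by
    have := UU_integrable hb hi hc 0
    refine this.congr ?_
    filter_upwards with u
    rw [zero_sub, poi_even]
  have hi1 : Integrable fun y => (Real.log A + Λ) * poi c y := (poi_integrable hc).const_mul _
  have hi2 : Integrable fun y => (m : ℝ) * poil c y := (poil_integrable hc).const_mul _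
  have h1 : ∫ u, poi c u * bb f 0 u ≤
      ∫ u, ((Real.log A + Λ) * poi c u + (m : ℝ) * poil c u) := by
    refine integral_mono hiF (hi1.add hi2) fun u => ?_
    have h2 : bb f 0 u ≤ Real.log A + Λ + m * Real.log (1 + |u|) := by
      have h3 := hl.log_le hA hΛ (z := (-((0 : ℝ) : ℂ) + u * I : ℂ)) (by simp)
      have h4 : (-((0 : ℝ) : ℂ) + u * I : ℂ).im = u := by simp
      rw [h4] at h3
      exact h3
    have h5 := poi_pos hc u
    have hm0 : (0 : ℝ) ≤ m := Nat.cast_nonneg m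
    calc poi c u * bb f 0 u ≤ poi c u * (Real.log A + Λ + m * Real.log (1 + |u|)) := by gcongr
      _ ≤ poi c u * (Real.log A + Λ + m * (1 + Real.log (1 + |u|))) := by
          gcongr
          linarith
      _ = _ := by unfold poil; ring
  rw [integral_add hi1 hi2, integral_const_mul, integral_const_mul, poi_integral hc] at h1
  calc Real.pi⁻¹ * (∫ u, poi c u * bb f 0 u) ≤
      Real.pi⁻¹ * ((Real.log A + Λ) * Real.pi + m * ∫ u, poil c u) := by gcongr
    _ = _ := by field_simp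

/-- Comparison of logarithms. -/
lemma log_compare {a y : ℝ} (ha : 1 ≤ a) (hy : 0 ≤ y) :
    Real.log (2 + y) ≤ (1 + Real.log a / Real.log 2) * Real.log (2 + y / a) := by
  have hl2 : 0 < Real.log 2 := Real.log_pos (by norm_num)
  have hla : 0 ≤ Real.log a := Real.log_nonneg ha
  have h0 : 0 ≤ y / a := by positivity
  have h1 : Real.log 2 ≤ Real.log (2 + y / a) := Real.log_le_log (by norm_num) (by linarith)
  have h2 : Real.log (2 + y) ≤ Real.log a + Real.log (2 + y / a) := by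
    rw [← Real.log_mul (by linarith) (by linarith)]
    refine Real.log_le_log (by linarith) ?_
    have : a * (2 + y / a) = 2 * a + y := by field_simp
    rw [this]
    linarith
  have h3 : Real.log a ≤ Real.log a / Real.log 2 * Real.log (2 + y / a) := by
    rw [div_mul_eq_mul_div, le_div_iff₀ hl2]
    gcongr
  linarith

end Pool.Agent.H26.ZQ
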