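import Pool.Agent.H26.ZQ.Stmt
import Pool.Agent.H26.ML.Equiv
import Pool.Agent.H26.ML.Ray

/-! The equivalences with the displacement and the Poisson means. -/

set_option autoImplicit false

open MeasureTheory Set Filter Topology Complex

namespace Pool.Agent.H26.ZQ

open Pool.Agent.H26.ML Pool.Agent.H26.MQ Pool.Agent.H23.GLM Pool.Agent.H23.GLH Pool.Agent.H23.DZ
open Pool.Agent.H73.DZ (X_le)

variable {m : ℕ}

/-- Once the displacement is small the bound follows. -/
theorem glh_of_smallDisp {S : Set (LData m)} (hm : 1 ≤ m) {A : ℝ} (hA : 1 ≤ A)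
    (hineq : ∀ π ∈ S, ∀ t : ℝ, 0 ≤ disp π.L t ∧ ‖π.L (1 / 2 + t * I)‖ ≤
      Real.exp (A * Real.log (2 * π.X t) /
        Real.log (2 + Real.log (2 * π.X t) / (1 + disp π.L t))))
    (h : SmallDisp S) : GLH S := by
  rw [ML.glh_iff hm]
  intro ε hε
  have hl2 : 0 < Real.log 2 := Real.log_pos (by norm_num)
  -- the ratio needed
  set R := Real.exp (A / ε) with hR
  have hR0 : 0 < R := Real.exp_pos _
  obtain ⟨K, hK⟩ := h (1 / (2 * R)) (by positivity)
  set K' := max (max K 1) (Real.exp (2 * R)) with hK'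
  have hK'1 : 1 ≤ K' := (le_max_right K 1).trans (le_max_left _ _)
  refine ⟨max (2 ^ ε) (Real.exp (A * Real.log (2 * K') / Real.log 2)), fun π hπ t => ?_⟩
  obtain ⟨hD0, hL⟩ := hineq π hπ t
  have hX1 := π.one_le_X t
  have hX0 : 0 < π.X t := by linarith
  have hXε : 1 ≤ π.X t ^ ε := Real.one_le_rpow hX1 hε.le
  have hlX : 0 ≤ Real.log (π.X t) := Real.log_nonneg hX1
  have hl2X : 0 ≤ Real.log (2 * π.X t) := Real.log_nonneg (by linarith)
  have hy0 : 0 ≤ Real.log (2 * π.X t) / (1 + disp π.L t) := by positivity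
  have hden : 0 < Real.log (2 + Real.log (2 * π.X t) / (1 + disp π.L t)) :=
    Real.log_pos (by linarith)
  rcases lt_or_ge (π.X t) K' with hlt | hge
  · refine hL.trans ?_
    have h1 : A * Real.log (2 * π.X t) /
        Real.log (2 + Real.log (2 * π.X t) / (1 + disp π.L t)) ≤
        A * Real.log (2 * K') / Real.log 2 := by
      have h2 : Real.log 2 ≤ Real.log (2 + Real.log (2 * π.X t) / (1 + disp π.L t)) :=
        Real.log_le_log (by norm_num) (by linarith)
      have h3 : Real.log (2 * π.X t) ≤ Real.log (2 * K') :=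
        Real.log_le_log (by linarith) (by linarith)
      have h4 : 0 ≤ Real.log (2 * K') := Real.log_nonneg (by linarith)
      gcongr
    calc Real.exp _ ≤ Real.exp (A * Real.log (2 * K') / Real.log 2) := Real.exp_le_exp.mpr h1
      _ ≤ max (2 ^ ε) (Real.exp (A * Real.log (2 * K') / Real.log 2)) * 1 := by
          rw [mul_one]; exact le_max_right _ _
      _ ≤ _ := by gcongr
  · have hKX : K ≤ π.X t := ((le_max_left K 1).trans (le_max_left _ _)).trans hge
    have hD := hK π hπ t hKX
    have hlX2 : 2 * R ≤ Real.log (π.X t) := by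
      rw [Real.le_log_iff_exp_le hX0]
      exact (le_max_right _ _).trans hge
    have h1 : (1 + disp π.L t) * R ≤ Real.log (2 * π.X t) := by
      have h2 : 1 / (2 * R) * Real.log (π.X t) * R = Real.log (π.X t) / 2 := by
        field_simp
      have h3 : disp π.L t * R ≤ Real.log (π.X t) / 2 := by
        rw [← h2]; gcongr
      have h4 : Real.log (2 * π.X t) = Real.log 2 + Real.log (π.X t) :=
        Real.log_mul (by norm_num) hX0.ne'
      rw [h4]
      nlinarith
    have h2 : R ≤ Real.log (2 * π.X t) / (1 + disp π.L t) := by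
      rw [le_div_iff₀ (by linarith)]
      linarith
    have h3 : A / ε ≤ Real.log (2 + Real.log (2 * π.X t) / (1 + disp π.L t)) := by
      rw [Real.le_log_iff_exp_le (by linarith)]
      linarith
    have h4 : A * Real.log (2 * π.X t) /
        Real.log (2 + Real.log (2 * π.X t) / (1 + disp π.L t)) ≤ ε * Real.log (2 * π.X t) := by
      rw [div_le_iff₀ hden]
      rw [div_le_iff₀ hε] at h3
      nlinarith
    refine hL.trans ((Real.exp_le_exp.mpr h4).trans ?_)
    have h5 : Real.exp (ε * Real.log (2 * π.X t)) = 2 ^ ε * π.X t ^ ε := by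
      rw [← Real.mul_rpow (by norm_num) hX0.le, Real.rpow_def_of_pos (by positivity), mul_comm ε]
    rw [h5]
    have h6 : (2:ℝ) ^ ε ≤ max (2 ^ ε) (Real.exp (A * Real.log (2 * K') / Real.log 2)) :=
      le_max_left _ _
    gcongr

/-- `GLH` bounds the Poisson means. -/
theorem smallMeans_of_glh {S : Set (LData m)} (hm : 1 ≤ m) {c : ℝ} (hc : 0 < c)
    (hint : ∀ π ∈ S, ∀ t : ℝ,
      Integrable (fun y : ℝ => poi c y * Real.log ‖π.L (1 / 2 + (t + y) * I)‖))
    (h : GLH S) : SmallMeans S c := by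
  rw [ML.glh_iff hm] at h
  intro ε hε
  have hπ := Real.pi_pos
  set J := ∫ y, poil c y with hJ
  have hJ0 : 0 ≤ J := integral_nonneg fun y => poil_nonneg hc y
  obtain ⟨B₀, hB₀⟩ := h (ε / 2) (by positivity)
  set B := max B₀ 1 with hB
  have hB1 : 1 ≤ B := le_max_right _ _
  have hlB : 0 ≤ Real.log B := Real.log_nonneg hB1
  set D := Real.log B + ε / 2 * (m * (Real.pi⁻¹ * J)) with hD
  refine ⟨Real.exp (2 * D / ε), fun π hπS t hX => ?_⟩
  have hX1 := π.one_le_X t
  have hX0 : 0 < π.X t := by linarith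
  have hlX : 0 ≤ Real.log (π.X t) := Real.log_nonneg hX1
  have hpt : ∀ y : ℝ, Real.log ‖π.L (1 / 2 + (t + y) * I)‖ ≤
      Real.log B + ε / 2 * (Real.log (π.X t) + m * Real.log (1 + |y|)) := by
    intro y
    have hy := abs_nonneg y
    have hly : 0 ≤ Real.log (1 + |y|) := Real.log_nonneg (by linarith)
    have h1 := hB₀ π hπS (t + y)
    have e1 : (1 / 2 + ((t + y : ℝ) : ℂ) * I : ℂ) = 1 / 2 + (t + y) * I := by push_cast; ring
    rw [e1] at h1
    have hXy1 := π.one_le_X (t + y)
    have h2 := X_le π t (t + y)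
    rw [add_sub_cancel_left] at h2
    have h3 : Real.log (π.X (t + y)) ≤ Real.log (π.X t) + m * Real.log (1 + |y|) := by
      have := Real.log_le_log (by linarith) h2
      rw [Real.log_mul (by positivity) hX0.ne', Real.log_pow] at this
      linarith
    have hlXy : 0 ≤ Real.log (π.X (t + y)) := Real.log_nonneg hXy1
    rcases (norm_nonneg (π.L (1 / 2 + (t + y) * I))).eq_or_lt with h0 | h0
    · rw [← h0, Real.log_zero]
      positivity
    · have h9 : ‖π.L (1 / 2 + (t + y) * I)‖ ≤ B * π.X (t + y) ^ (ε / 2) := by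
        refine h1.trans ?_
        have : B₀ ≤ B := le_max_left _ _
        gcongr
      have h10 := Real.log_le_log h0 h9
      rw [Real.log_mul (by linarith) (by positivity), Real.log_rpow (by linarith)] at h10
      refine h10.trans ?_
      gcongr
  have hi1 : Integrable fun y => (Real.log B + ε / 2 * Real.log (π.X t)) * poi c y :=
    (poi_integrable hc).const_mul _
  have hi2 : Integrable fun y => ε / 2 * m * poil c y := (poil_integrable hc).const_mul _
  have h1 : ∫ y : ℝ, poi c y * Real.log ‖π.L (1 / 2 + (t + y) * I)‖ ≤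
      ∫ y, ((Real.log B + ε / 2 * Real.log (π.X t)) * poi c y + ε / 2 * m * poil c y) := by
    refine integral_mono (hint π hπS t) (hi1.add hi2) fun y => ?_
    have h2 := hpt y
    have h3 := poi_pos hc y
    have hy := abs_nonneg y
    have hly : 0 ≤ Real.log (1 + |y|) := Real.log_nonneg (by linarith)
    calc poi c y * Real.log ‖π.L (1 / 2 + (t + y) * I)‖ ≤
        poi c y * (Real.log B + ε / 2 * (Real.log (π.X t) + m * Real.log (1 + |y|))) := by
          gcongr
      _ ≤ poi c y * (Real.log B + ε / 2 * (Real.log (π.X t) +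
          m * (1 + Real.log (1 + |y|)))) := by
          have : (m : ℝ) * Real.log (1 + |y|) ≤ m * (1 + Real.log (1 + |y|)) := by
            have : (0 : ℝ) ≤ m := Nat.cast_nonneg m
            nlinarith
          gcongr
      _ = _ := by unfold poil; ring
  rw [integral_add hi1 hi2, integral_const_mul, integral_const_mul, poi_integral hc] at h1
  have h2 : logMean π.L c t ≤ D + ε / 2 * Real.log (π.X t) := by
    unfold logMean
    have h3 : ∫ y : ℝ, c / (c ^ 2 + y ^ 2) * Real.log ‖π.L (1 / 2 + (t + y) * I)‖ ≤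
      (Real.log B + ε / 2 * Real.log (π.X t)) * Real.pi + ε / 2 * m * J := h1
    calc Real.pi⁻¹ * ∫ y : ℝ, c / (c ^ 2 + y ^ 2) * Real.log ‖π.L (1 / 2 + (t + y) * I)‖ ≤
        Real.pi⁻¹ * ((Real.log B + ε / 2 * Real.log (π.X t)) * Real.pi + ε / 2 * m * J) := by
          gcongr
      _ = _ := by rw [hD]; field_simp; ring
  have h3 : 2 * D / ε ≤ Real.log (π.X t) := by
    rw [Real.le_log_iff_exp_le hX0]; exact hX
  have h4 : D ≤ ε / 2 * Real.log (π.X t) := by
    rw [div_le_iff₀ hε] at h3
    linarith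
  linarith

theorem mollifiable_of_smallMeans {S : Set (LData m)} {c : ℝ} (h : SmallMeans S c) :
    Mollifiable S c := by
  intro ε hε
  obtain ⟨K, hK⟩ := h ε hε
  refine ⟨K, fun π hπ t hX => ⟨fun _ => 1, ⟨fun _ _ => analyticAt_const, 1, 0, fun s _ => by simp⟩,
    one_ne_zero, ?_⟩⟩
  simp only [norm_one, Real.log_one, mul_one, sub_zero]
  exact hK π hπ t hX

theorem smallDisp_of_mollifiable {S : Set (LData m)} {c A : ℝ} (hA : 1 ≤ A)
    (hineq : ∀ π ∈ S, ∀ t : ℝ, ∀ M : ℂ → ℂ, Multiplier M → M (1 / 2 + c + t * I) ≠ 0 →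
      disp π.L t ≤
        A * (A + logMean (fun s => π.L s * M s) c t - Real.log ‖M (1 / 2 + c + t * I)‖))
    (h : Mollifiable S c) : SmallDisp S := by
  intro ε hε
  obtain ⟨K, hK⟩ := h (ε / (2 * A)) (by positivity)
  refine ⟨max K (Real.exp (2 * A ^ 2 / ε)), fun π hπ t hX => ?_⟩
  have hX1 := π.one_le_X t
  have hX0 : 0 < π.X t := by linarith
  obtain ⟨M, hM, hne, hMm⟩ := hK π hπ t ((le_max_left _ _).trans hX)
  have h1 := hineq π hπ t M hM hne
  have h2 : 2 * A ^ 2 / ε ≤ Real.log (π.X t) := by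
    rw [Real.le_log_iff_exp_le hX0]; exact (le_max_right _ _).trans hX
  rw [div_le_iff₀ hε] at h2
  calc disp π.L t ≤
      A * (A + logMean (fun s => π.L s * M s) c t - Real.log ‖M (1 / 2 + c + t * I)‖) := h1
    _ = A * (A + (logMean (fun s => π.L s * M s) c t -
          Real.log ‖M (1 / 2 + c + t * I)‖)) := by ring
    _ ≤ A * (A + ε / (2 * A) * Real.log (π.X t)) := by gcongr
    _ = A ^ 2 + ε / 2 * Real.log (π.X t) := by field_simp
    _ ≤ _ := by linarith

end Pool.Agent.H26.ZQ
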