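import Pool.Agent.H26.ZQ.Defs

/-! # The function of Green of the half plane -/

open Complex

namespace Pool.Agent.H26.ZQ

theorem gr_log {c : ℝ} {z : ℂ} (hc : 0 < c) (hz : 0 < z.re) (hne : z ≠ c) :
    Real.log (‖(c : ℂ) + z‖ / ‖(c : ℂ) - z‖) =
      (1 / 2) * Real.log (((c + z.re) ^ 2 + z.im ^ 2) / ((c - z.re) ^ 2 + z.im ^ 2)) := by
  have h1 : ‖(c : ℂ) + z‖ ^ 2 = (c + z.re) ^ 2 + z.im ^ 2 := by
    rw [← Complex.normSq_eq_norm_sq, Complex.normSq_apply]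
    simp
    ring
  have h2 : ‖(c : ℂ) - z‖ ^ 2 = (c - z.re) ^ 2 + z.im ^ 2 := by
    rw [← Complex.normSq_eq_norm_sq, Complex.normSq_apply]
    simp
    ring
  rw [← h1, ← h2, ← div_pow, Real.log_pow]
  push_cast
  ring

theorem pf_gr : T_GR := by
  intro c σ hσ hσc
  have hc : 0 < c := hσ.trans hσc
  have hd : 0 < (c - σ) ^ 2 := by
    have : 0 < c - σ := by linarith
    positivity
  have hk1 : 0 ≤ (1 + c ^ 2) / c := by positivity
  have hk2 : 0 ≤ 2 * c * (1 + (1 + σ ^ 2) / (c - σ) ^ 2) := by positivity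
  refine ⟨1 + (1 + c ^ 2) / c + 2 * c * (1 + (1 + σ ^ 2) / (c - σ) ^ 2), by linarith, ?_⟩
  intro z hz
  have hn : ‖z‖ ^ 2 = z.re ^ 2 + z.im ^ 2 := by
    rw [← Complex.normSq_eq_norm_sq, Complex.normSq_apply]
    ring
  have hn1 : 0 < 1 + ‖z‖ ^ 2 := by positivity
  constructor
  · intro hne
    rw [gr_log hc hz hne]
    have hM : 0 < (c - z.re) ^ 2 + z.im ^ 2 := by
      rcases eq_or_ne z.im 0 with h | h
      · have : z.re ≠ c := by
          intro h'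
          apply hne
          apply Complex.ext
          · simpa using h'
          · simpa using h
        have h2 : c - z.re ≠ 0 := sub_ne_zero.mpr (Ne.symm this)
        positivity
      · positivity
    have hP : 0 < (c + z.re) ^ 2 + z.im ^ 2 := by positivity
    have h3 : 1 - (((c + z.re) ^ 2 + z.im ^ 2) / ((c - z.re) ^ 2 + z.im ^ 2))⁻¹ ≤
        Real.log (((c + z.re) ^ 2 + z.im ^ 2) / ((c - z.re) ^ 2 + z.im ^ 2)) :=
      Real.one_sub_inv_le_log_of_pos (by positivity)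
    have h4 : 1 - (((c + z.re) ^ 2 + z.im ^ 2) / ((c - z.re) ^ 2 + z.im ^ 2))⁻¹ =
        4 * c * z.re / ((c + z.re) ^ 2 + z.im ^ 2) := by
      rw [inv_div]
      field_simp
      ring
    have h5 : z.re / (1 + ‖z‖ ^ 2) ≤ (1 + c ^ 2) / c * (1 / 2 * (4 * c * z.re / ((c + z.re) ^ 2 + z.im ^ 2))) := by
      have e : (1 + c ^ 2) / c * (1 / 2 * (4 * c * z.re / ((c + z.re) ^ 2 + z.im ^ 2))) =
          (2 * (1 + c ^ 2) * z.re) / ((c + z.re) ^ 2 + z.im ^ 2) := by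
        field_simp
        ring
      rw [e, div_le_div_iff₀ hn1 hP, hn]
      have : (c + z.re) ^ 2 + z.im ^ 2 ≤ 2 * (1 + c ^ 2) * (1 + (z.re ^ 2 + z.im ^ 2)) := by
        nlinarith [sq_nonneg (c - z.re), sq_nonneg (c * z.re), sq_nonneg (c * z.im), sq_nonneg z.im, sq_nonneg z.re, sq_nonneg c]
      nlinarith [mul_le_mul_of_nonneg_left this hz.le]
    have h6 : 0 ≤ 1 / 2 * (4 * c * z.re / ((c + z.re) ^ 2 + z.im ^ 2)) := by positivity
    have h7 : 1 / 2 * (4 * c * z.re / ((c + z.re) ^ 2 + z.im ^ 2)) ≤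
        1 / 2 * Real.log (((c + z.re) ^ 2 + z.im ^ 2) / ((c - z.re) ^ 2 + z.im ^ 2)) := by
      linarith [h4 ▸ h3]
    have h8 : 0 ≤ 1 / 2 * Real.log (((c + z.re) ^ 2 + z.im ^ 2) / ((c - z.re) ^ 2 + z.im ^ 2)) := h6.trans h7
    calc z.re / (1 + ‖z‖ ^ 2)
        ≤ (1 + c ^ 2) / c * (1 / 2 * (4 * c * z.re / ((c + z.re) ^ 2 + z.im ^ 2))) := h5
      _ ≤ (1 + c ^ 2) / c * (1 / 2 * Real.log (((c + z.re) ^ 2 + z.im ^ 2) / ((c - z.re) ^ 2 + z.im ^ 2))) :=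
          mul_le_mul_of_nonneg_left h7 hk1
      _ ≤ _ := mul_le_mul_of_nonneg_right (by linarith) h8
  · intro hx
    have hne : z ≠ c := by
      intro h
      rw [h] at hx
      simp at hx
      linarith
    rw [gr_log hc hz hne]
    have hcx : 0 < c - z.re := by linarith
    have hM : 0 < (c - z.re) ^ 2 + z.im ^ 2 := by positivity
    have hP : 0 < (c + z.re) ^ 2 + z.im ^ 2 := by positivity
    have h3 : Real.log (((c + z.re) ^ 2 + z.im ^ 2) / ((c - z.re) ^ 2 + z.im ^ 2)) ≤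
        ((c + z.re) ^ 2 + z.im ^ 2) / ((c - z.re) ^ 2 + z.im ^ 2) - 1 :=
      Real.log_le_sub_one_of_pos (by positivity)
    have h4 : ((c + z.re) ^ 2 + z.im ^ 2) / ((c - z.re) ^ 2 + z.im ^ 2) - 1 =
        4 * c * z.re / ((c - z.re) ^ 2 + z.im ^ 2) := by
      field_simp
      ring
    have h5 : 1 + ‖z‖ ^ 2 ≤ (1 + (1 + σ ^ 2) / (c - σ) ^ 2) * ((c - z.re) ^ 2 + z.im ^ 2) := by
      have a1 : (c - σ) ^ 2 ≤ (c - z.re) ^ 2 := by
        apply pow_le_pow_left₀ (by linarith)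
        linarith
      have a2 : (1 + σ ^ 2) ≤ (1 + σ ^ 2) / (c - σ) ^ 2 * (c - z.re) ^ 2 := by
        rw [div_mul_eq_mul_div, le_div_iff₀ hd]
        exact mul_le_mul_of_nonneg_left a1 (by positivity)
      have a3 : z.re ^ 2 ≤ σ ^ 2 := pow_le_pow_left₀ hz.le hx 2
      have a4 : 0 ≤ (1 + σ ^ 2) / (c - σ) ^ 2 * z.im ^ 2 := by positivity
      have a5 : 0 ≤ (c - z.re) ^ 2 := by positivity
      rw [hn]
      nlinarith
    have h6 : 1 / 2 * (4 * c * z.re / ((c - z.re) ^ 2 + z.im ^ 2)) ≤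
        2 * c * (1 + (1 + σ ^ 2) / (c - σ) ^ 2) * (z.re / (1 + ‖z‖ ^ 2)) := by
      have e1 : 1 / 2 * (4 * c * z.re / ((c - z.re) ^ 2 + z.im ^ 2)) =
          (2 * c * z.re) / ((c - z.re) ^ 2 + z.im ^ 2) := by ring
      have e2 : 2 * c * (1 + (1 + σ ^ 2) / (c - σ) ^ 2) * (z.re / (1 + ‖z‖ ^ 2)) =
          (2 * c * z.re * (1 + (1 + σ ^ 2) / (c - σ) ^ 2)) / (1 + ‖z‖ ^ 2) := by ring
      rw [e1, e2, div_le_div_iff₀ hM hn1]
      have := mul_le_mul_of_nonneg_left h5 (show 0 ≤ 2 * c * z.re by positivity)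
      linarith
    have h7 : 0 ≤ z.re / (1 + ‖z‖ ^ 2) := by positivity
    have h8 : 2 * c * (1 + (1 + σ ^ 2) / (c - σ) ^ 2) * (z.re / (1 + ‖z‖ ^ 2)) ≤
        (1 + (1 + c ^ 2) / c + 2 * c * (1 + (1 + σ ^ 2) / (c - σ) ^ 2)) * (z.re / (1 + ‖z‖ ^ 2)) :=
      mul_le_mul_of_nonneg_right (by linarith) h7
    linarith [h4 ▸ h3]

end Pool.Agent.H26.ZQ
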