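import Pool.Agent.H26.ZQ.App
import Pool.Agent.H26.MQ.Final

/-! The inequality in terms of the zeros. -/

set_option autoImplicit false

open MeasureTheory Set Filter Topology Complex

namespace Pool.Agent.H26.ZQ

open Pool.Agent.H26.ML Pool.Agent.H26.MQ Pool.Agent.H23.GLM Pool.Agent.H23.GLH Pool.Agent.H23.DZ

variable {m : ℕ}

lemma multiplier_one : Multiplier (fun _ => 1) :=
  ⟨fun _ _ => analyticAt_const, 1, 0, fun s _ => by simp⟩

lemma mono_arith {A A' D P Λ : ℝ} (hA : 0 ≤ A) (hA' : 1 ≤ A') (hD : 0 ≤ D) (hΛ : 0 ≤ Λ)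
    (hP1 : 1 ≤ P) (hP : P ≤ A' * (1 + D)) :
    A * Λ / Real.log (2 + Λ / P) ≤
      A * (1 + Real.log A' / Real.log 2) * Λ / Real.log (2 + Λ / (1 + D)) := by
  have hl2 : 0 < Real.log 2 := Real.log_pos (by norm_num)
  have hlA' : 0 ≤ Real.log A' := Real.log_nonneg hA'
  have h1D : 0 < 1 + D := by linarith
  have hy : 0 ≤ Λ / (1 + D) := by positivity
  have h1 := log_compare hA' hy
  have h2 : Λ / (1 + D) / A' = Λ / (A' * (1 + D)) := by
    rw [div_div, mul_comm A']
  rw [h2] at h1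
  have h3 : Λ / (A' * (1 + D)) ≤ Λ / P := by gcongr
  have h4 : 0 ≤ Λ / (A' * (1 + D)) := by positivity
  have h5 : Real.log (2 + Λ / (A' * (1 + D))) ≤ Real.log (2 + Λ / P) :=
    Real.log_le_log (by linarith) (by linarith)
  have h6 : 0 < Real.log (2 + Λ / P) := Real.log_pos (by linarith)
  have h7 : 0 < Real.log (2 + Λ / (1 + D)) := Real.log_pos (by linarith)
  set q : ℝ := 1 + Real.log A' / Real.log 2 with hq
  have hq0 : 0 ≤ q := by positivity
  have h8 : Real.log (2 + Λ / (1 + D)) ≤ q * Real.log (2 + Λ / P) := by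
    refine h1.trans ?_
    gcongr
  rw [div_le_div_iff₀ h6 h7]
  calc A * Λ * Real.log (2 + Λ / (1 + D)) ≤ A * Λ * (q * Real.log (2 + Λ / P)) := by gcongr
    _ = _ := by ring

/-- **The inequality in terms of the displacement of the zeros.** -/
theorem disp_ineq (hPB : T_PB) (hJP : T_JP) (hSG : T_SG) (hKT : T_KT) (hHE : T_HE) (hGR : T_GR)
    {S : Set (LData m)} (hM : Molteni S) (hF : FarBounds S) :
    ∃ c₀ : ℝ, 0 < c₀ ∧ ∀ c : ℝ, c₀ ≤ c → ∃ A : ℝ, 1 ≤ A ∧ ∀ π ∈ S, ∀ t : ℝ,
      Summable (dispTerm π.L t) ∧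
      disp π.L t ≤ A * Real.log (2 * π.X t) ∧
      ‖π.L (1 / 2 + t * I)‖ ≤ Real.exp (A * Real.log (2 * π.X t) /
        Real.log (2 + Real.log (2 * π.X t) / (1 + disp π.L t))) ∧
      Integrable (fun y : ℝ => poi c y * Real.log ‖π.L (1 / 2 + (t + y) * I)‖) ∧
      logMean π.L c t ≤ A * (1 + disp π.L t) ∧
      ∀ M : ℂ → ℂ, Multiplier M → M (1 / 2 + c + t * I) ≠ 0 → disp π.L t ≤
        A * (A + logMean (fun s => π.L s * M s) c t - Real.log ‖M (1 / 2 + c + t * I)‖) := by
  classical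
  obtain ⟨A₀, σ, hA₀, hσ, hloc⟩ := exists_loc hM hF
  obtain ⟨c₁, hc₁, hmain⟩ := mean_ineq hPB hJP hSG hKT hM hF
  obtain ⟨σ₁, ε₁, hε₁, hfar⟩ := hF
  refine ⟨max (σ + 2) (max c₁ (max σ₁ 1)), by positivity, fun c hc => ?_⟩
  have hcσ : σ + 2 ≤ c := (le_max_left _ _).trans hc
  have hcc₁ : c₁ ≤ c := ((le_max_left _ _).trans (le_max_right _ _)).trans hc
  have hcσ₁ : σ₁ ≤ c :=
    ((le_max_left _ _).trans ((le_max_right _ _).trans (le_max_right _ _))).trans hc
  have hc0 : 0 < c := by linarith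
  obtain ⟨A₁, hA₁, hmain⟩ := hmain c hcc₁
  obtain ⟨κ, hκ, hG⟩ := hGR c σ hσ (by linarith)
  have hlA₀ : 0 ≤ Real.log A₀ := Real.log_nonneg hA₀
  have hl7 : 0 ≤ Real.log 7 := Real.log_nonneg (by norm_num)
  -- constants
  set B := |Real.log (ε₁⁻¹)| with hB
  have hB0 : 0 ≤ B := abs_nonneg _
  set J := m * (Real.pi⁻¹ * ∫ u, poil c u) with hJ
  have hJ0 : 0 ≤ J := by
    have : 0 ≤ ∫ u, poil c u := integral_nonneg fun u => poil_nonneg hc0 u
    have := Real.pi_pos
    positivity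
  set A₂ := κ + B + Real.log 7 + A₁ with hA₂
  have hA₂1 : 1 ≤ A₂ := by linarith
  set q := 1 + Real.log A₂ / Real.log 2 with hq
  have hl2 : 0 < Real.log 2 := Real.log_pos (by norm_num)
  have hq1 : 1 ≤ q := by
    have : 0 ≤ Real.log A₂ := Real.log_nonneg hA₂1
    rw [hq]
    have : 0 ≤ Real.log A₂ / Real.log 2 := by positivity
    linarith
  have hκJ : 0 ≤ κ * (2 * Real.log A₀ + Real.log 7 + J + 1) / Real.log 2 := by positivity
  refine ⟨A₂ * q + κ + Real.log A₀ + κ * (2 * Real.log A₀ + Real.log 7 + J + 1) / Real.log 2,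
    by linarith [le_mul_of_one_le_right (by linarith : 0 ≤ A₂) hq1], fun π hπ t => ?_⟩
  set A := A₂ * q + κ + Real.log A₀ +
    κ * (2 * Real.log A₀ + Real.log 7 + J + 1) / Real.log 2 with hA
  have hAq : A₂ ≤ A₂ * q := le_mul_of_one_le_right (by linarith) hq1
  have hAA₂ : A₂ ≤ A := by linarith
  have hAκ : κ ≤ A := by linarith
  have hAlog : Real.log A₀ ≤ A := by linarith
  have hX1 := π.one_le_X t
  have hX0 : 0 < π.X t := by linarith
  have hΛ : 0 ≤ Real.log (π.X t) := Real.log_nonneg hX1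
  have hl := hloc π hπ t
  obtain ⟨hiL, hFL, hLne⟩ := mean_F_L hA₀ hσ hloc hπ (c := c) (t := t) hc0
  have hsumle : ∀ W : Finset ℂ, ∑ ρ ∈ W, dispTerm π.L t ρ ≤
      κ * (logMean π.L c t + Real.log A₀) := fun W =>
    disp_sum_le hA₀ hσ hcσ hκ (fun z hz hzc => (hG z hz).1 hzc) hl hΛ hFL W
  have hsum : Summable (dispTerm π.L t) :=
    summable_of_sum_le (fun ρ => dispTerm_nonneg _ _ _) hsumle
  have hD : disp π.L t ≤ κ * (logMean π.L c t + Real.log A₀) :=
    Real.tsum_le_of_sum_le (fun ρ => dispTerm_nonneg _ _ _) hsumle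
  have hD0 : 0 ≤ disp π.L t := tsum_nonneg fun ρ => dispTerm_nonneg _ _ _
  -- the mean
  have hfc : Real.log ‖π.F (1 / 2 + t * I + c)‖ ≤ B := by
    have h1 : (1 / 2 + t * I + c : ℂ).re = 1 / 2 + c := by simp
    have hc1 : 1 ≤ c :=
      ((le_max_right σ₁ 1).trans ((le_max_right _ _).trans (le_max_right _ _))).trans hc
    have h2 := norm_F_le_L π (s := 1 / 2 + t * I + c) (by rw [h1]; linarith)
    have h3 := (hfar π hπ (1 / 2 + t * I + c) (by rw [h1]; linarith)).2
    rcases (norm_nonneg (π.F (1 / 2 + t * I + c))).eq_or_lt with h0 | h0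
    · rw [← h0, Real.log_zero]; exact hB0
    · exact (Real.log_le_log h0 (h2.trans h3)).trans (le_abs_self _)
  have hmean : logMean π.L c t ≤ κ * disp π.L t + B + Real.log 7 := by
    have h1 := mean_L_F hA₀ hσ hΛ hl hc0 hiL
    have h2 := mean_le_disp hHE hA₀ hσ hcσ hκ (fun z hz hzσ => (hG z hz).2 hzσ) hl hΛ hsum hfc
    linarith
  obtain ⟨hP1, hL⟩ := hmain π hπ t _ multiplier_one one_ne_zero
  simp only [norm_one, Real.log_one, mul_one, sub_zero] at hP1 hL
  have hlog2X : 0 ≤ Real.log (2 * π.X t) := Real.log_nonneg (by linarith)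
  refine ⟨hsum, ?_, ?_, hiL, ?_, ?_⟩
  · have h1 := mean_L_F hA₀ hσ hΛ hl hc0 hiL
    have h2 := mean_F_triv hA₀ hσ hΛ hl hc0
    have h3 : disp π.L t ≤
        κ * (Real.log (π.X t) + (2 * Real.log A₀ + Real.log 7 + J)) := by
      refine hD.trans (mul_le_mul_of_nonneg_left ?_ (by linarith))
      linarith
    have h4 : Real.log (2 * π.X t) = Real.log 2 + Real.log (π.X t) :=
      Real.log_mul (by norm_num) hX0.ne'
    have h5 : κ * (Real.log (π.X t) + (2 * Real.log A₀ + Real.log 7 + J)) ≤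
        (κ + κ * (2 * Real.log A₀ + Real.log 7 + J + 1) / Real.log 2) *
          Real.log (2 * π.X t) := by
      rw [h4]
      set G := 2 * Real.log A₀ + Real.log 7 + J with hG
      have hG0 : 0 ≤ G := by positivity
      have e1 : (κ + κ * (G + 1) / Real.log 2) * (Real.log 2 + Real.log (π.X t)) =
          κ * (Real.log (π.X t) + G) + (κ * Real.log 2 + κ +
            κ * (G + 1) / Real.log 2 * Real.log (π.X t)) := by
        field_simp
        ring
      rw [e1]
      have : 0 ≤ κ * Real.log 2 + κ + κ * (G + 1) / Real.log 2 * Real.log (π.X t) := by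
        positivity
      linarith
    refine h3.trans (h5.trans (mul_le_mul_of_nonneg_right ?_ hlog2X))
    linarith
  · refine hL.trans (Real.exp_le_exp.mpr ?_)
    have h1 : A₁ + logMean π.L c t ≤ A₂ * (1 + disp π.L t) := by
      have : κ * disp π.L t ≤ A₂ * disp π.L t := by
        gcongr
        linarith
      linarith
    refine (mono_arith (by linarith) hA₂1 hD0 hlog2X hP1 h1).trans ?_
    have h7 : 0 < Real.log (2 + Real.log (2 * π.X t) / (1 + disp π.L t)) :=
      Real.log_pos (by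
        have : 0 ≤ Real.log (2 * π.X t) / (1 + disp π.L t) := by positivity
        linarith)
    have h8 : A₁ * (1 + Real.log A₂ / Real.log 2) ≤ A := by
      rw [← hq]
      have : A₁ * q ≤ A₂ * q := by
        gcongr
        linarith
      linarith
    gcongr
  · have : κ * disp π.L t ≤ A * disp π.L t := by gcongr
    linarith
  · intro M hMul hne
    have h1 := mean_L_LM hMul hc0 hne hiL hLne
    have h2 : 0 ≤ logMean π.L c t + Real.log A₀ := by
      by_contra hcon
      push Not at hcon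
      have : κ * (logMean π.L c t + Real.log A₀) < 0 := by
        apply mul_neg_of_pos_of_neg (by linarith) hcon
      linarith
    have h3 : logMean π.L c t + Real.log A₀ ≤
        A + logMean (fun s => π.L s * M s) c t - Real.log ‖M (1 / 2 + c + t * I)‖ := by linarith
    calc disp π.L t ≤ κ * (logMean π.L c t + Real.log A₀) := hD
      _ ≤ A * (logMean π.L c t + Real.log A₀) := by gcongr
      _ ≤ _ := by gcongr

end Pool.Agent.H26.ZQ
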