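import Pool.Agent.H26.ML.HalfPlane
import Pool.Agent.H26.ML.Poi

/-!
# Equality in the formula of Jensen in the half plane: definitions and module targets

For a function of polynomial growth in `Re z ≥ -1/4` which is bounded below in `Re z ≥ σ` the formula
of Jensen in the half plane `Re z > 0` holds with equality. We need the inequality which is not true
in general.
-/

set_option autoImplicit false

open MeasureTheory Set Filter Topology Metric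

namespace Pool.Agent.H26.ZQ

open Pool.Agent.H26.ML

/-- The hypotheses on `f`. -/
structure Hyp (E σ : ℝ) (k : ℕ) (f : ℂ → ℂ) : Prop where
  an : AnalyticOnNhd ℂ f {z | -(1 / 4) ≤ z.re}
  grow : ∀ z : ℂ, -(1 / 4) ≤ z.re → ‖f z‖ ≤ E * (1 + |z.im|) ^ k
  far : ∀ z : ℂ, σ ≤ z.re → 1 ≤ E * ‖f z‖

/-- The real part of `c (cδ + iu) / (c + iδu)`. -/
noncomputable def zx (c δ u : ℝ) : ℝ := c * δ * (c ^ 2 + u ^ 2) / (c ^ 2 + δ ^ 2 * u ^ 2)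

/-- The imaginary part of `c (cδ + iu) / (c + iδu)`. -/
noncomputable def zy (c δ u : ℝ) : ℝ := c ^ 2 * (1 - δ ^ 2) * u / (c ^ 2 + δ ^ 2 * u ^ 2)

/-- The point `c (cδ + iu) / (c + iδu)`. -/
noncomputable def zz (c δ u : ℝ) : ℂ := zx c δ u + zy c δ u * Complex.I

/-! ### Targets -/

/-- LB. Lower bound for `f` in the strip `0 ≤ Re z ≤ σ`. -/
def T_LB : Prop := ∀ (E σ : ℝ) (k : ℕ) (f : ℂ → ℂ), 1 ≤ E → 0 < σ → Hyp E σ k f →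
  ∃ C : ℝ, 0 < C ∧ ∀ y₀ : ℝ, ∃ (N : ℕ) (ζ : Fin N → ℂ),
    (N : ℝ) ≤ C * (1 + Real.log (1 + |y₀|)) ∧
    ∀ z : ℂ, 0 ≤ z.re → z.re ≤ σ → |z.im - y₀| ≤ 1 → f z ≠ 0 →
      -(C * (1 + Real.log (1 + |y₀|))) + ∑ j, Real.log ‖z - ζ j‖ ≤ Real.log ‖f z‖

/-- ZC. The image of the circle of radius `r`. -/
def T_ZC : Prop := ∀ c r u : ℝ, 0 < c → 0 < r → r ≤ 1 →
  cay c (circleMap 0 r (ang c u)) = zz c ((1 - r) / (1 + r)) u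

/-- SEP. The imaginary part of `zz c δ u` as a function of `u`. -/
def T_SEP : Prop := ∀ c σ : ℝ, 0 < σ → σ < c → ∃ δ₀ : ℝ, 0 < δ₀ ∧ δ₀ ≤ 1 / 2 ∧
  ∀ δ u v : ℝ, 0 < δ → δ ≤ δ₀ → zx c δ u ≤ σ → zx c δ v ≤ σ →
    |u - v| / 2 ≤ |zy c δ u - zy c δ v| ∧ |zy c δ u - zy c δ v| ≤ |u - v|

/-- SQ. The square integral over an interval of length one. -/
def T_SQ : Prop := ∃ C₀ : ℝ, 0 ≤ C₀ ∧ ∀ (a K : ℝ) (N : ℕ) (ζ : Fin N → ℂ) (w : ℝ → ℂ) (F : ℝ → ℝ)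
  (S : Set ℝ), 0 ≤ K → Continuous w → IsClosed S → Measurable F →
  (∀ u ∈ S ∩ Icc a (a + 1), ∀ v ∈ S ∩ Icc a (a + 1), |u - v| / 2 ≤ |(w u).im - (w v).im|) →
  (∀ u ∈ S ∩ Icc a (a + 1), F u < 0 → -K + ∑ j, Real.log ‖w u - ζ j‖ ≤ F u) →
  ∫⁻ u in S ∩ Icc a (a + 1), ENNReal.ofReal ((max (-F u) 0) ^ 2) ≤
    ENNReal.ofReal (C₀ * (K + N) ^ 2)

/-- UNI. The square integral of the negative part of `log |f|` over the circles is bounded. -/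
def T_UNI : Prop := ∀ (E σ c : ℝ) (k : ℕ) (f : ℂ → ℂ), 1 ≤ E → 0 < σ → σ < c → Hyp E σ k f →
  ∃ B δ₀ : ℝ, 0 < δ₀ ∧ ∀ δ : ℝ, 0 < δ → δ ≤ δ₀ →
    ∫⁻ u : ℝ, ENNReal.ofReal (poi c u * (max (-Real.log ‖f (zz c δ u)‖) 0) ^ 2) ≤
      ENNReal.ofReal B

/-- CIR. The same on the circles. -/
def T_CIR : Prop := ∀ (E σ c : ℝ) (k : ℕ) (f : ℂ → ℂ), 1 ≤ E → 0 < σ → σ < c → Hyp E σ k f →
  ∃ B : ℝ, ∀ᶠ n in atTop, ∫⁻ θ in Ioc 0 (2 * Real.pi),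
    ENNReal.ofReal ((max (-bdry f c (rad n) θ) 0) ^ 2) ≤ ENNReal.ofReal B

/-- FLO. A lemma of Fatou for functions whose negative parts are bounded in `L^2`. -/
def T_FLO : Prop := ∀ {α : Type} [MeasurableSpace α] (μ : Measure α) [IsFiniteMeasure μ]
  (g : ℕ → α → ℝ) (g₀ : α → ℝ) (B V : ℝ), (∀ n, Integrable (g n) μ) → Integrable g₀ μ →
  (∀ᵐ x ∂μ, Tendsto (fun n => g n x) atTop (𝓝 (g₀ x))) →
  (∀ᶠ n in atTop, ∫⁻ x, ENNReal.ofReal ((max (-g n x) 0) ^ 2) ∂μ ≤ ENNReal.ofReal B) →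
  (∀ᶠ n in atTop, ∫ x, g n x ∂μ ≤ V) → ∫ x, g₀ x ∂μ ≤ V

/-- JU. The other inequality in the formula of Jensen in a disc. -/
def T_JU : Prop := ∀ (F : ℂ → ℂ) (r T : ℝ), 0 < r → r < 1 → AnalyticOnNhd ℂ F (closedBall 0 r) →
  F 0 ≠ 0 → (∀ W : Finset ℂ, (∀ w ∈ W, w ∈ closedBall (0 : ℂ) r) →
    ∑ w ∈ W, (analyticOrderNatAt F w : ℝ) * Real.log (1 / ‖w‖) ≤ T) →
  Real.circleAverage (fun z => Real.log ‖F z‖) 0 r ≤ T + Real.log ‖F 0‖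

/-- HE. The other inequality in the formula of Jensen in the half plane. -/
def T_HE : Prop := ∀ (E σ c T : ℝ) (k : ℕ) (f : ℂ → ℂ), 1 ≤ E → 0 < σ → σ < c → Hyp E σ k f →
  (∀ Z : Finset ℂ, (∀ z ∈ Z, 0 < z.re) → ∑ z ∈ Z, (analyticOrderNatAt f z : ℝ) *
    Real.log (‖(c : ℂ) + z‖ / ‖(c : ℂ) - z‖) ≤ T) →
  ∫ u : ℝ, poi c u * Real.log ‖f (u * Complex.I)‖ ≤ Real.pi * (T + Real.log ‖f c‖)

/-- GR. The function of Green of the half plane. -/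
def T_GR : Prop := ∀ c σ : ℝ, 0 < σ → σ < c → ∃ κ : ℝ, 1 ≤ κ ∧ ∀ z : ℂ, 0 < z.re →
  ((z : ℂ) ≠ c → z.re / (1 + ‖z‖ ^ 2) ≤ κ * Real.log (‖(c : ℂ) + z‖ / ‖(c : ℂ) - z‖)) ∧
  (z.re ≤ σ → Real.log (‖(c : ℂ) + z‖ / ‖(c : ℂ) - z‖) ≤ κ * (z.re / (1 + ‖z‖ ^ 2)))

end Pool.Agent.H26.ZQ
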