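import Pool.Agent.H26.ZQ.Main
import Pool.Agent.H26.ZQ.Crit
import Pool.Agent.H26.MQ.All

/-! The inequality and the equivalences. -/

set_option autoImplicit false

open MeasureTheory Set Filter Topology Complex

namespace Pool.Agent.H26.ZQ

open Pool.Agent.H26.ML Pool.Agent.H26.MQ Pool.Agent.H23.GLM Pool.Agent.H23.GLH Pool.Agent.H23.DZ

/-- **The inequality and the equivalences.** -/
theorem final (hHE : T_HE) (hGR : T_GR) (m : ℕ) (S : Set (LData m)) (hm : 1 ≤ m)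
    (hM : Molteni S) (hF : FarBounds S) :
    ∃ c₀ : ℝ, 0 < c₀ ∧ ∀ c : ℝ, c₀ ≤ c →
      (∃ A : ℝ, 1 ≤ A ∧ ∀ π ∈ S, ∀ t : ℝ,
        Summable (dispTerm π.L t) ∧ disp π.L t ≤ A * Real.log (2 * π.X t) ∧
        ‖π.L (1 / 2 + t * I)‖ ≤ Real.exp (A * Real.log (2 * π.X t) /
          Real.log (2 + Real.log (2 * π.X t) / (1 + disp π.L t))) ∧
        logMean π.L c t ≤ A * (1 + disp π.L t) ∧
        ∀ M : ℂ → ℂ, Multiplier M → M (1 / 2 + c + t * I) ≠ 0 → disp π.L t ≤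
          A * (A + logMean (fun s => π.L s * M s) c t - Real.log ‖M (1 / 2 + c + t * I)‖)) ∧
      List.TFAE [
        GLH S,
        SmallDisp S,
        SmallMeans S c,
        Mollifiable S c,
        ∀ R ε : ℝ, 0 < R → 0 < ε → LogMeans S R ε,
        ∀ ε : ℝ, 0 < ε → ∃ R : ℝ, 0 < R ∧ LogMeans S R (ε * min 1 R),
        Mollified S] := by
  obtain ⟨c₀, hc₀, h⟩ := disp_ineq all_pb all_jp all_sg all_kt hHE hGR hM hF
  refine ⟨c₀, hc₀, fun c hc => ?_⟩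
  obtain ⟨A, hA, h⟩ := h c hc
  have hc0 : 0 < c := by linarith
  refine ⟨⟨A, hA, fun π hπ t => ?_⟩, ?_⟩
  · obtain ⟨h1, h2, h3, _, h4, h5⟩ := h π hπ t
    exact ⟨h1, h2, h3, h4, h5⟩
  · have hT := mollifier_tfae m S hm hM hF
    tfae_have 1 ↔ 5 := hT.out 0 1
    tfae_have 1 ↔ 6 := hT.out 0 2
    tfae_have 1 ↔ 7 := hT.out 0 3
    tfae_have 1 → 3 := fun hG => smallMeans_of_glh hm hc0 (fun π hπ t => (h π hπ t).2.2.2.1) hG
    tfae_have 3 → 4 := mollifiable_of_smallMeans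
    tfae_have 4 → 2 := fun hG => smallDisp_of_mollifiable hA
      (fun π hπ t => (h π hπ t).2.2.2.2.2) hG
    tfae_have 2 → 1 := fun hG => glh_of_smallDisp hm hA (fun π hπ t =>
      ⟨tsum_nonneg fun ρ => dispTerm_nonneg _ _ _, (h π hπ t).2.2.1⟩) hG
    tfae_finish

end Pool.Agent.H26.ZQ
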